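import Pool.Agent.Lib.MP_79b5eb_lc.M2.Final

/-!
The equality problem in the variety `M(n)` is decidable if and only if `n ≤ 2`.
-/

universe u

open Pool.Agent.Lib.MP_79b5eb_lc in
/-- Q1 of MP_79b5eb_lc. -/
theorem Pool.Agent.Results.MP_79b5eb_lc.MatrixDecidableIff.result :
    ∀ (F : Type u) [Field F] [CharZero F] (n : ℕ), 1 ≤ n → (EqualityDecidableM F n ↔ n ≤ 2) :=
  fun F _ _ n hn => M2.decidable_iff F n hn
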