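import Pool.Agent.Lib.MP_79b5eb_lc.Undec

/-!
The equality problem is undecidable in `S(n)` for all `n ≥ 6`.
-/

universe u

open Pool.Agent.Lib.MP_79b5eb_lc in
/-- Q2 of MP_79b5eb_lc for `n ≥ 6`. -/
theorem Pool.Agent.Results.MP_79b5eb_lc.StandardUndecidable.result :
    ∀ (F : Type u) [Field F] [CharZero F] (n : ℕ), 6 ≤ n → ¬ EqualityDecidableS F n :=
  fun F _ _ n hn => undecidable_S F n hn
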